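import Pool.Agent.Lib.FM60.Main
import Pool.Agent.Lib.EC60.Fin

set_option autoImplicit false
open scoped Classical

namespace Pool.Agent.Results.MP_f5d5f4_nt.AlmostAllCurves

/-- The group of points over `ℚ̄` of the curve `y² = x³ + Ax + B`, where `A, B` are rational. -/
abbrev Pts (A B : ℚ) : Type :=
  ((WeierstrassCurve.mk 0 0 0 A B : WeierstrassCurve ℚ).baseChange
    (AlgebraicClosure ℚ)).toAffine.Point

/-- The points of `y² = x³ + Ax + B` over `ℚ̄` killed by `n`. -/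
abbrev Tors (A B : ℚ) (n : ℕ) : Type := Submodule.torsionBy ℤ (Pts A B) (n : ℤ)

/-- The action of a Galois automorphism on the points. -/
noncomputable abbrev gal {A B : ℚ} (σ : AlgebraicClosure ℚ ≃ₐ[ℚ] AlgebraicClosure ℚ)
    (P : Pts A B) : Pts A B :=
  WeierstrassCurve.Affine.Point.map
    (W' := (WeierstrassCurve.mk 0 0 0 A B : WeierstrassCurve ℚ).toAffine) σ.toAlgHom P

/-- Every Galois automorphism which acts trivially on the `p`-torsion of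
`E₂ : y² = x³ + A₂x + B₂` acts on the `p`-torsion of `E₁ : y² = x³ + A₁x + B₁` by multiplication
by an integer. -/
def ScalarOn (A₁ B₁ A₂ B₂ : ℚ) (p : ℕ) : Prop :=
  ∀ σ : AlgebraicClosure ℚ ≃ₐ[ℚ] AlgebraicClosure ℚ,
    (∀ P : Pts A₂ B₂, p • P = 0 → gal σ P = P) →
    ∃ c : ℕ, ∀ P : Pts A₁ B₁, p • P = 0 → gal σ P = c • P

/-- The `n`-torsion groups of `y² = x³ + A₁x + B₁` and `y² = x³ + A₂x + B₂` are isomorphic as
Galois modules. -/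
def Congruent (A₁ B₁ A₂ B₂ : ℚ) (n : ℕ) : Prop :=
  ∃ φ : Tors A₁ B₁ n ≃+ Tors A₂ B₂ n,
    ∀ σ : AlgebraicClosure ℚ ≃ₐ[ℚ] AlgebraicClosure ℚ, ∀ P Q : Tors A₁ B₁ n,
      Q.1 = gal σ P.1 → (φ Q).1 = gal σ (φ P).1

/-- **The Frey–Mazur conjecture for almost all curves, against all curves whose `j`-invariant has
comparable height.** Let `1 ≤ κ < 9/8` and `ε > 0`. There is `C` such that for every `T ≥ 1`, for
all but at most `C T^(10 - (20/67)(9 - 8κ) + ε)` of the (about `4 T^10`) elliptic curves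
`E₁ : y² = x³ + A₁x + B₁` with integers `|A₁| ≤ T⁴`, `|B₁| ≤ T⁶` the following holds for every
curve `E₂ : y² = x³ + A₂x + B₂` with integers `|A₂| ≤ T^(4κ)`, `|B₂| ≤ T^(6κ)`:

* if, for some prime `p`, every Galois automorphism acting trivially on `E₂[p]` acts on `E₁[p]` by
  multiplication by an integer, then `E₁` and `E₂` have the same `j`-invariant;
* let `E` be any quadratic twist over `ℚ` of `E₂` (including `E₂` itself), of arbitrary height. If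
  `E₁[n]` and `E[n]` are isomorphic Galois modules for some `n ≥ 2`, then `E₁` and `E` have the
  same `j`-invariant, and if moreover `n` is divisible by an odd prime, then `E₁` and `E` are
  isomorphic over `ℚ`. -/
theorem result (κ ε : ℝ) (hκ : 1 ≤ κ) (hκ' : κ < 9 / 8) (hε : 0 < ε) :
    ∃ C : ℝ, ∀ T : ℝ, 1 ≤ T → ∃ S : Finset (ℤ × ℤ),
      (S.card : ℝ) ≤ C * T ^ (10 - 20 / 67 * (9 - 8 * κ) + ε) ∧
      ∀ A₁ B₁ : ℤ, |(A₁ : ℝ)| ≤ T ^ 4 → |(B₁ : ℝ)| ≤ T ^ 6 → 4 * A₁ ^ 3 + 27 * B₁ ^ 2 ≠ 0 →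
        (A₁, B₁) ∉ S →
      ∀ A₂ B₂ : ℤ, |(A₂ : ℝ)| ≤ T ^ (4 * κ) → |(B₂ : ℝ)| ≤ T ^ (6 * κ) →
        4 * A₂ ^ 3 + 27 * B₂ ^ 2 ≠ 0 →
        (∀ p : ℕ, p.Prime → ScalarOn A₁ B₁ A₂ B₂ p → A₁ ^ 3 * B₂ ^ 2 = A₂ ^ 3 * B₁ ^ 2) ∧
        (∀ t : ℚ, t ≠ 0 → ∀ n : ℕ, 2 ≤ n → Congruent A₁ B₁ (t ^ 2 * A₂) (t ^ 3 * B₂) n →
          A₁ ^ 3 * B₂ ^ 2 = A₂ ^ 3 * B₁ ^ 2 ∧
          ((∃ p : ℕ, p.Prime ∧ p ≠ 2 ∧ p ∣ n) →
            ∃ r : ℚ, r ≠ 0 ∧ t ^ 2 * A₂ = r ^ 4 * A₁ ∧ t ^ 3 * B₂ = r ^ 6 * B₁)) := by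
  have := Pool.Agent.Lib.EC60.isGalois_rat
  exact Pool.Agent.Lib.FM60.main (AlgebraicClosure ℚ) κ ε hκ hκ' hε

end Pool.Agent.Results.MP_f5d5f4_nt.AlmostAllCurves
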