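import Pool.Agent.Lib.FM60.Dens3
import Pool.Agent.Lib.EC60.Fin

set_option autoImplicit false
open scoped Classical

namespace Pool.Agent.Results.MP_f5d5f4_nt.DensityOne

/-- The group of points over `ℚ̄` of the curve `y² = x³ + Ax + B`, where `A, B` are rational. -/
abbrev Pts (A B : ℚ) : Type :=
  ((WeierstrassCurve.mk 0 0 0 A B : WeierstrassCurve ℚ).baseChange
    (AlgebraicClosure ℚ)).toAffine.Point

/-- The points of `y² = x³ + Ax + B` over `ℚ̄` killed by `n`. -/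
abbrev Tors (A B : ℚ) (n : ℕ) : Type := Submodule.torsionBy ℤ (Pts A B) (n : ℤ)

/-- The action of a Galois automorphism on the points. -/
noncomputable abbrev gal {A B : ℚ} (σ : AlgebraicClosure ℚ ≃ₐ[ℚ] AlgebraicClosure ℚ)
    (P : Pts A B) : Pts A B :=
  WeierstrassCurve.Affine.Point.map
    (W' := (WeierstrassCurve.mk 0 0 0 A B : WeierstrassCurve ℚ).toAffine) σ.toAlgHom P

/-- The `n`-torsion groups of `y² = x³ + A₁x + B₁` and `y² = x³ + A₂x + B₂` are isomorphic as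
Galois modules. -/
def Congruent (A₁ B₁ A₂ B₂ : ℚ) (n : ℕ) : Prop :=
  ∃ φ : Tors A₁ B₁ n ≃+ Tors A₂ B₂ n,
    ∀ σ : AlgebraicClosure ℚ ≃ₐ[ℚ] AlgebraicClosure ℚ, ∀ P Q : Tors A₁ B₁ n,
      Q.1 = gal σ P.1 → (φ Q).1 = gal σ (φ P).1

/-- The product of the primes `q ≥ 5` that divide `D` exactly once. -/
def exactPart (D : ℤ) : ℕ := ∏ q ∈ D.natAbs.primeFactors with (5 ≤ q ∧ ¬ q ^ 2 ∣ D.natAbs), q

/-- `y² = x³ + Ax + B` is an elliptic curve, and the product of the primes `q ≥ 5` which divide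
`4A³ + 27B²` exactly once is at least `H^θ`, where `H = max(|A|³, B²)` is the height. -/
def Thick (θ : ℝ) (A B : ℤ) : Prop :=
  4 * A ^ 3 + 27 * B ^ 2 ≠ 0 ∧
    (max (|(A : ℝ)| ^ 3) ((B : ℝ) ^ 2)) ^ θ ≤ (exactPart (4 * A ^ 3 + 27 * B ^ 2) : ℝ)

/-- **The Frey–Mazur conjecture for all pairs of curves in a set of density one.**
Let `5/6 < θ < 1`. There is a set `G` of elliptic curves `y² = x³ + Ax + B` with integers `A, B`
such that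

* all curves in `G` are `θ`-thick, and for every `ε > 0` there is `C` such that for every `T ≥ 1`
  all but at most `C T^(10 - min(4(6θ - 5)/5, 20(1 - θ)/7) + ε)` of the (about `4 T^10`) pairs of
  integers `|A| ≤ T⁴`, `|B| ≤ T⁶` lie in `G`;
* if `E₁ ∈ G`, if `E₂` is any `θ`-thick curve, of any height (in particular, if `E₂ ∈ G`), and if
  `E` is any quadratic twist over `ℚ` of `E₂` (including `E₂` itself) such that `E₁[n]` and `E[n]`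
  are isomorphic Galois modules for some `n ≥ 2`, then `E₁` and `E` have the same `j`-invariant,
  and if moreover `n` is divisible by an odd prime, then `E₁` and `E` are isomorphic over `ℚ`. -/
theorem result (θ : ℝ) (hθ : 5 / 6 < θ) (hθ' : θ < 1) :
    ∃ G : Set (ℤ × ℤ),
      (∀ A B : ℤ, (A, B) ∈ G → Thick θ A B) ∧
      (∀ ε : ℝ, 0 < ε → ∃ C : ℝ, ∀ T : ℝ, 1 ≤ T → ∃ S : Finset (ℤ × ℤ),
        (S.card : ℝ) ≤ C * T ^ (10 - min (4 / 5 * (6 * θ - 5)) (20 / 7 * (1 - θ)) + ε) ∧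
        ∀ A B : ℤ, |(A : ℝ)| ≤ T ^ 4 → |(B : ℝ)| ≤ T ^ 6 → (A, B) ∉ S → (A, B) ∈ G) ∧
      ∀ A₁ B₁ A₂ B₂ : ℤ, (A₁, B₁) ∈ G → Thick θ A₂ B₂ →
        ∀ t : ℚ, t ≠ 0 → ∀ n : ℕ, 2 ≤ n → Congruent A₁ B₁ (t ^ 2 * A₂) (t ^ 3 * B₂) n →
          A₁ ^ 3 * B₂ ^ 2 = A₂ ^ 3 * B₁ ^ 2 ∧
          ((∃ p : ℕ, p.Prime ∧ p ≠ 2 ∧ p ∣ n) →
            ∃ r : ℚ, r ≠ 0 ∧ t ^ 2 * A₂ = r ^ 4 * A₁ ∧ t ^ 3 * B₂ = r ^ 6 * B₁) := by
  have := Pool.Agent.Lib.EC60.isGalois_rat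
  refine ⟨Pool.Agent.Lib.FM60.GoodSet θ, ?_, ?_, ?_⟩
  · intro A B h
    exact ⟨h.1, h.2.2.2.2.1⟩
  · intro ε hε
    obtain ⟨C, hC, h⟩ := Pool.Agent.Lib.FM60.card_bad_le θ ε hθ hθ' hε
    refine ⟨C, fun T hT => ⟨_, h T hT, ?_⟩⟩
    intro A B hA hB hS
    by_contra hcon
    exact hS (Finset.mem_filter.mpr ⟨Pool.Agent.Lib.FM60.mem_Box.mpr ⟨hA, hB⟩, hcon⟩)
  · intro A₁ B₁ A₂ B₂ h₁ h₂ t ht n hn hc
    exact Pool.Agent.Lib.FM60.dens_main (AlgebraicClosure ℚ) h₁ h₂.1 h₂.2 ht hn hc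

end Pool.Agent.Results.MP_f5d5f4_nt.DensityOne
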