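import Pool.Agent.Lib.FK60.Bad
import Pool.Agent.Lib.EC60.Fin

set_option autoImplicit false
open scoped Classical

namespace Pool.Agent.Results.MP_f5d5f4_nt.FreyPartners

/-- The group of points over `ℚ̄` of the curve `y² = x³ + Ax + B`, where `A, B` are rational. -/
abbrev Pts (A B : ℚ) : Type :=
  ((WeierstrassCurve.mk 0 0 0 A B : WeierstrassCurve ℚ).baseChange
    (AlgebraicClosure ℚ)).toAffine.Point

/-- The points of `y² = x³ + Ax + B` over `ℚ̄` killed by `n`. -/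
abbrev Tors (A B : ℚ) (n : ℕ) : Type := Submodule.torsionBy ℤ (Pts A B) (n : ℤ)

/-- The action of a Galois automorphism on the points. -/
noncomputable abbrev gal {A B : ℚ} (σ : AlgebraicClosure ℚ ≃ₐ[ℚ] AlgebraicClosure ℚ)
    (P : Pts A B) : Pts A B :=
  WeierstrassCurve.Affine.Point.map
    (W' := (WeierstrassCurve.mk 0 0 0 A B : WeierstrassCurve ℚ).toAffine) σ.toAlgHom P

/-- The `n`-torsion groups of `y² = x³ + A₁x + B₁` and `y² = x³ + A₂x + B₂` are isomorphic as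
Galois modules. -/
def Congruent (A₁ B₁ A₂ B₂ : ℚ) (n : ℕ) : Prop :=
  ∃ φ : Tors A₁ B₁ n ≃+ Tors A₂ B₂ n,
    ∀ σ : AlgebraicClosure ℚ ≃ₐ[ℚ] AlgebraicClosure ℚ, ∀ P Q : Tors A₁ B₁ n,
      Q.1 = gal σ P.1 → (φ Q).1 = gal σ (φ P).1

/-- The coefficient `A` of the model `y² = x³ + Ax + B` of the Frey curve `y² = x(x-a)(x+b)`
obtained by replacing `(x, y)` by `(9x + 3(b-a), 27y)`. Its discriminant is given by
`4A³ + 27B² = -3¹² (ab(a+b))²`. -/
def freyA (a b : ℤ) : ℤ := -27 * (a ^ 2 + a * b + b ^ 2)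

/-- The coefficient `B` of the same model. -/
def freyB (a b : ℤ) : ℤ := 27 * ((b - a) * (2 * a + b) * (a + 2 * b))

/-- The size `H = max(|a|, |b|)` of the pair `(a, b)`. -/
noncomputable def size (a b : ℤ) : ℝ := max |(a : ℝ)| |(b : ℝ)|

/-- The pairs of coprime integers `(a, b)` with `ab(a+b) ≠ 0`. -/
def Pair (a b : ℤ) : Prop := IsCoprime a b ∧ a * b * (a + b) ≠ 0

/-- The product of the primes `q ≥ 5` that divide `D` exactly once. -/
def exactPart (D : ℤ) : ℕ := ∏ q ∈ D.natAbs.primeFactors with (5 ≤ q ∧ ¬ q ^ 2 ∣ D.natAbs), q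

/-- The product of the primes `q ≥ 5` which divide `ab(a+b)` exactly once is at least
`H^(3θ)`. -/
def Thick (θ : ℝ) (a b : ℤ) : Prop :=
  size a b ^ (3 * θ) ≤ (exactPart (a * b * (a + b)) : ℝ)

/-- All but at most `N` of the pairs of size at most `T` lie in `G`. -/
def AllBut (G : Set (ℤ × ℤ)) (T N : ℝ) : Prop :=
  ∃ S : Finset (ℤ × ℤ), (S.card : ℝ) ≤ N ∧
    ∀ a b : ℤ, size a b ≤ T → Pair a b → (a, b) ∉ S → (a, b) ∈ G

/-- `{|a'|, |b'|, |a'+b'|} = {|a|, |b|, |a+b|}`, and the quadratic twist by `t` of the Frey curve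
of `(a', b')` is isomorphic over `ℚ` to the Frey curve of `(a, b)`. -/
def Same (a b a' b' : ℤ) (t : ℚ) : Prop :=
  ({|a'|, |b'|, |a' + b'|} : Finset ℤ) = {|a|, |b|, |a + b|} ∧
    ∃ r : ℚ, r ≠ 0 ∧ t ^ 2 * freyA a' b' = r ^ 4 * freyA a b ∧
      t ^ 3 * freyB a' b' = r ^ 6 * freyB a b

/-- **The Frey–Mazur conjecture for almost all Frey curves.** Let `9/10 < θ < 1`. There is a set
`G` of pairs of coprime integers `(a, b)`, `ab(a+b) ≠ 0`, such that

* for every `ε > 0` there is `C` such that for every `T ≥ 1` all but at most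
  `C T^(2 - min((10θ - 9)/24, (1 - θ)/3) + ε)` of the (about `24 T²/π²`) pairs of size at most
  `T` lie in `G`;
* if `(a, b) ∈ G`, if `(a', b')` is `θ`-thick, of any size (in particular if `(a', b') ∈ G`), or
  of size `H'` with `H'^θ ≤ H`, if `E` is any quadratic twist over `ℚ` of the Frey curve
  `y² = x(x-a')(x+b')`, and if the `n`-torsion of the Frey curve `F : y² = x(x-a)(x+b)` and of `E`
  are isomorphic Galois modules for some `n` divisible by an odd prime, then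
  `{|a'|, |b'|, |a'+b'|} = {|a|, |b|, |a+b|}` and `E` is isomorphic to `F` over `ℚ`;
* for every `K ≥ 1` there are `p₀`, `δ > 0`, `C` and a subset `G'` of `G` which contains, for
  every `T ≥ 1`, all but at most `C T^(2 - δ)` of the pairs of size at most `T`, such that the same
  conclusion holds for all `(a, b) ∈ G'`, **all** pairs `(a', b')` of size `H' ≤ H^K`, all
  quadratic twists `E` and all `n` with a prime factor `p ≥ p₀`. -/
theorem result (θ : ℝ) (hθ : 9 / 10 < θ) (hθ' : θ < 1) :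
    ∃ G : Set (ℤ × ℤ),
      (∀ a b : ℤ, (a, b) ∈ G → Pair a b ∧ Thick θ a b) ∧
      (∀ ε : ℝ, 0 < ε → ∃ C : ℝ, ∀ T : ℝ, 1 ≤ T →
        AllBut G T (C * T ^ (2 - min ((10 * θ - 9) / 24) ((1 - θ) / 3) + ε))) ∧
      (∀ a b a' b' : ℤ, (a, b) ∈ G → Pair a' b' →
        (Thick θ a' b' ∨ size a' b' ^ θ ≤ size a b) →
        ∀ t : ℚ, t ≠ 0 → ∀ n p : ℕ, p.Prime → p ≠ 2 → p ∣ n →
          Congruent (freyA a b) (freyB a b) (t ^ 2 * freyA a' b') (t ^ 3 * freyB a' b') n →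
          Same a b a' b' t) ∧
      ∀ K : ℝ, 1 ≤ K → ∃ p₀ : ℕ, ∃ δ : ℝ, 0 < δ ∧ ∃ C : ℝ, ∃ G' : Set (ℤ × ℤ), G' ⊆ G ∧
        (∀ T : ℝ, 1 ≤ T → AllBut G' T (C * T ^ (2 - δ))) ∧
        ∀ a b a' b' : ℤ, (a, b) ∈ G' → Pair a' b' → size a' b' ≤ size a b ^ K →
          ∀ t : ℚ, t ≠ 0 → ∀ n p : ℕ, p.Prime → p₀ ≤ p → p ∣ n →
            Congruent (freyA a b) (freyB a b) (t ^ 2 * freyA a' b') (t ^ 3 * freyB a' b') n →
            Same a b a' b' t := by
  have := Pool.Agent.Lib.EC60.isGalois_rat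
  refine ⟨Pool.Agent.Lib.FR60.FGood θ, ?_, ?_, ?_, ?_⟩
  · intro a b h
    exact ⟨⟨h.1, h.2.1⟩, h.2.2.2.2.1⟩
  · intro ε hε
    obtain ⟨C, hC, h⟩ := Pool.Agent.Lib.FR60.card_badF_le θ ε hθ hθ' hε
    refine ⟨C, fun T hT => ⟨_, h T hT, ?_⟩⟩
    intro a b hs hab hS
    by_contra hcon
    exact hS (Finset.mem_filter.mpr ⟨Pool.Agent.Lib.FR60.mem_Fbox_iff.mpr hs, hab.1, hab.2, hcon⟩)
  · intro a b a' b' h h₁ h₂ t ht n p hp hp2 hpn hc
    exact Pool.Agent.Lib.FR60.frey_main (AlgebraicClosure ℚ) (z := (a, b)) (w := (a', b')) h h₁.1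
      h₁.2 h₂ ht hp hp2 hpn hc
  · intro K hK
    obtain ⟨p₀, hp₀, δ, hδ, C, h⟩ := Pool.Agent.Lib.FK60.card_badP_le θ hθ hθ' K hK
    refine ⟨p₀, δ, hδ, C, Pool.Agent.Lib.FK60.FPoly θ K p₀, fun z hz => hz.1, ?_, ?_⟩
    · intro T hT
      refine ⟨_, h T hT, ?_⟩
      intro a b hs hab hS
      by_contra hcon
      exact hS (Finset.mem_filter.mpr
        ⟨Pool.Agent.Lib.FR60.mem_Fbox_iff.mpr hs, hab.1, hab.2, hcon⟩)
    · intro a b a' b' hz h₁ h₂ t ht n p hp hpp₀ hpn hc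
      exact Pool.Agent.Lib.FK60.frey_poly (AlgebraicClosure ℚ) hp₀ (z := (a, b)) (w := (a', b')) hz
        h₁.1 h₁.2 h₂ ht hp hpp₀ hpn hc

end Pool.Agent.Results.MP_f5d5f4_nt.FreyPartners
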