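import Pool.Agent.Lib.TT60.TRat
import Pool.Agent.Lib.EC60.Fin

set_option autoImplicit false
open scoped Classical

namespace Pool.Agent.Results.MP_f5d5f4_nt.TwoTorsion

/-- The group of points over `ℚ̄` of the curve `y² = x³ + Ax + B`, where `A, B` are rational. -/
abbrev Pts (A B : ℚ) : Type :=
  ((WeierstrassCurve.mk 0 0 0 A B : WeierstrassCurve ℚ).baseChange
    (AlgebraicClosure ℚ)).toAffine.Point

/-- The points of `y² = x³ + Ax + B` over `ℚ̄` killed by `n`. -/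
abbrev Tors (A B : ℚ) (n : ℕ) : Type := Submodule.torsionBy ℤ (Pts A B) (n : ℤ)

/-- The action of a Galois automorphism on the points. -/
noncomputable abbrev gal {A B : ℚ} (σ : AlgebraicClosure ℚ ≃ₐ[ℚ] AlgebraicClosure ℚ)
    (P : Pts A B) : Pts A B :=
  WeierstrassCurve.Affine.Point.map
    (W' := (WeierstrassCurve.mk 0 0 0 A B : WeierstrassCurve ℚ).toAffine) σ.toAlgHom P

/-- The `n`-torsion groups of `y² = x³ + A₁x + B₁` and `y² = x³ + A₂x + B₂` are isomorphic as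
Galois modules. -/
def Congruent (A₁ B₁ A₂ B₂ : ℚ) (n : ℕ) : Prop :=
  ∃ φ : Tors A₁ B₁ n ≃+ Tors A₂ B₂ n,
    ∀ σ : AlgebraicClosure ℚ ≃ₐ[ℚ] AlgebraicClosure ℚ, ∀ P Q : Tors A₁ B₁ n,
      Q.1 = gal σ P.1 → (φ Q).1 = gal σ (φ P).1

/-- There is a nonconstant rational map (an isogeny), defined over `ℚ`, from `y² = x³ + A₁x + B₁` to
`y² = x³ + A₂x + B₂`; the same condition as in the frozen statement `S18991`. -/
def Isogenous (A₁ B₁ A₂ B₂ : ℚ) : Prop :=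
  ∃ f g : RatFunc ℚ, (∀ c : ℚ, f ≠ RatFunc.C c) ∧
    (RatFunc.X ^ 3 + RatFunc.C A₁ * RatFunc.X + RatFunc.C B₁) * g ^ 2 =
      f ^ 3 + RatFunc.C A₂ * f + RatFunc.C B₂

/-- The coefficient `A` of the model `y² = x³ + Ax + B` of the curve `y² = x³ + ax² + bx`
obtained by replacing `(x, y)` by `(9x + 3a, 27y)`. Its discriminant is given by
`4A³ + 27B² = -3¹² b²(a² - 4b)`. -/
def coefA (a b : ℤ) : ℤ := -27 * (a ^ 2 - 3 * b)

/-- The coefficient `B` of the same model. -/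
def coefB (a b : ℤ) : ℤ := 27 * (a * (2 * a ^ 2 - 9 * b))

/-- The product of the primes `q ≥ 5` that divide `D` exactly once. -/
def exactPart (D : ℤ) : ℕ := ∏ q ∈ D.natAbs.primeFactors with (5 ≤ q ∧ ¬ q ^ 2 ∣ D.natAbs), q

/-- The size `max(|a|, |b|^(1/2))` of the curve `y² = x³ + ax² + bx`. -/
noncomputable def size (a b : ℤ) : ℝ := max |(a : ℝ)| (Real.sqrt |(b : ℝ)|)

/-- The product of the primes `q ≥ 5` which divide `b(a² - 4b)` exactly once is at least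
`size^(4θ)`. -/
def Thick (θ : ℝ) (a b : ℤ) : Prop :=
  size a b ^ (4 * θ) ≤ (exactPart (b * (a ^ 2 - 4 * b)) : ℝ)

/-- **The Frey–Mazur conjecture for almost all curves with a rational point of order 2.**
Let `C(a, b)` be the elliptic curve `y² = x³ + ax² + bx` and let `11/12 < θ < 1`. There is a set
`G` of pairs of integers `(a, b)`, `b(a² - 4b) ≠ 0`, such that

* all pairs in `G` are `θ`-thick, and for every `ε > 0` there is `C` such that for every `T ≥ 1`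
  all but at most `C T^(3 - min((12θ - 11)/33, (1 - θ)/2) + ε)` of the (about `4T³`) pairs of
  integers `|a| ≤ T`, `|b| ≤ T²` with `b(a² - 4b) ≠ 0` lie in `G`;
* if `(a, b) ∈ G`, if `(a', b')` are integers with `b'(a'² - 4b') ≠ 0` and either `θ`-thick (and of
  any size; in particular if `(a', b') ∈ G`) or of size `H'` with `H'^θ ≤ H`, if `E` is any
  quadratic twist over `ℚ` of `C(a', b')` (including this curve itself), and if the `n`-torsion of
  `C(a, b)` and the `n`-torsion of `E` are isomorphic Galois modules for some `n` divisible by an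
  odd prime, then `C(a, b)` and `E` are isogenous over `ℚ`; more precisely `E` is isomorphic over `ℚ`
  to `C(a, b)` or to `C(-2a, a² - 4b)` (the quotient of `C(a, b)` by the point `(0, 0)`). -/
theorem result (θ : ℝ) (hθ : 11 / 12 < θ) (hθ' : θ < 1) :
    ∃ G : Set (ℤ × ℤ),
      (∀ a b : ℤ, (a, b) ∈ G → b * (a ^ 2 - 4 * b) ≠ 0 ∧ Thick θ a b) ∧
      (∀ ε : ℝ, 0 < ε → ∃ C : ℝ, ∀ T : ℝ, 1 ≤ T → ∃ S : Finset (ℤ × ℤ),
        (S.card : ℝ) ≤ C * T ^ (3 - min ((12 * θ - 11) / 33) ((1 - θ) / 2) + ε) ∧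
        ∀ a b : ℤ, |(a : ℝ)| ≤ T → |(b : ℝ)| ≤ T ^ 2 → b * (a ^ 2 - 4 * b) ≠ 0 →
          (a, b) ∉ S → (a, b) ∈ G) ∧
      ∀ a b a' b' : ℤ, (a, b) ∈ G → b' * (a' ^ 2 - 4 * b') ≠ 0 →
        (Thick θ a' b' ∨ size a' b' ^ θ ≤ size a b) →
        ∀ t : ℚ, t ≠ 0 → ∀ n p : ℕ, p.Prime → p ≠ 2 → p ∣ n →
          Congruent (coefA a b) (coefB a b) (t ^ 2 * coefA a' b') (t ^ 3 * coefB a' b') n →
          Isogenous (coefA a b) (coefB a b) (t ^ 2 * coefA a' b') (t ^ 3 * coefB a' b') ∧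
          ((∃ r : ℚ, r ≠ 0 ∧ t ^ 2 * coefA a' b' = r ^ 4 * coefA a b ∧
            t ^ 3 * coefB a' b' = r ^ 6 * coefB a b) ∨
          (∃ r : ℚ, r ≠ 0 ∧ t ^ 2 * coefA a' b' = r ^ 4 * coefA (-2 * a) (a ^ 2 - 4 * b) ∧
            t ^ 3 * coefB a' b' = r ^ 6 * coefB (-2 * a) (a ^ 2 - 4 * b))) := by
  have := Pool.Agent.Lib.EC60.isGalois_rat
  refine ⟨Pool.Agent.Lib.TT60.TGood θ, ?_, ?_, ?_⟩
  · intro a b h
    exact ⟨h.1, h.2.2.2.2.2.2.1⟩
  · intro ε hε
    obtain ⟨C, hC, h⟩ := Pool.Agent.Lib.TT60.card_badT_le θ ε hθ hθ' hε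
    refine ⟨C, fun T hT => ⟨_, h T hT, ?_⟩⟩
    intro a b ha hb hD hS
    by_contra hcon
    exact hS (Finset.mem_filter.mpr ⟨Pool.Agent.Lib.TT60.mem_Tbox.mpr ⟨ha, hb⟩, hD, hcon⟩)
  · intro a b a' b' h h₂ h₃ t ht n p hp hp2 hpn hc
    have hmain := Pool.Agent.Lib.TT60.twoTorsion_main (AlgebraicClosure ℚ) (z := (a, b))
      (w := (a', b')) h h₂ h₃ ht hp hp2 hpn hc
    refine ⟨?_, hmain⟩
    rcases hmain with ⟨r, hr, h4, h6⟩ | ⟨r, hr, h4, h6⟩
    · exact Pool.Agent.Lib.TT60.ratIso hr h4 h6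
    · refine Pool.Agent.Lib.TT60.ratVelu (e := 3 * a) (t := 81 * b) ?_ ?_ hr (h4.trans ?_)
        (h6.trans ?_)
      · simp only [coefA]; push_cast; ring
      · simp only [coefA, coefB]; push_cast; ring
      · simp only [coefA, Pool.Agent.Lib.TT60.TA, Pool.Agent.Lib.TT60.iso]; push_cast; ring
      · simp only [coefB, Pool.Agent.Lib.TT60.TB, Pool.Agent.Lib.TT60.iso]; push_cast; ring

end Pool.Agent.Results.MP_f5d5f4_nt.TwoTorsion
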